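import Pool.Agent.Run7.h131.AD.Iface

/-! Project AD (helper131), piece CAT (helper497). -/

set_option autoImplicit false

namespace Run7.h497.AD

open Run7.h131.AD

theorem t_CAT : S_CAT := by
  intro s t w N M w₁ N₁ M₁ h h₁
  have e2 : ∀ i, pt2 (Fin.append w w₁) (Sum.map (Fin.castAdd t) (Fin.castAdd t) i) = pt2 w i := by
    rintro (i | i) <;> simp [pt2]
  have e2' : ∀ i, pt2 (Fin.append w w₁) (Sum.map (Fin.natAdd s) (Fin.natAdd s) i) = pt2 w₁ i := by
    rintro (i | i) <;> simp [pt2]
  have e0 : ∀ i, pt0 (Fin.append w w₁) (Sum.map (Fin.castAdd t) (Fin.castAdd t) i) = pt0 w i := by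
    rintro (i | i) <;> simp [pt0, c0]
  have e0' : ∀ i, pt0 (Fin.append w w₁) (Sum.map (Fin.natAdd s) (Fin.natAdd s) i) = pt0 w₁ i := by
    rintro (i | i) <;> simp [pt0, c0]
  refine ⟨Fin.addCases (fun i => MvPolynomial.rename (Sum.map (Fin.castAdd t) (Fin.castAdd t)) (N i))
      (fun i => MvPolynomial.rename (Sum.map (Fin.natAdd s) (Fin.natAdd s)) (N₁ i)),
    Fin.addCases (fun i => MvPolynomial.rename (Sum.map (Fin.castAdd t) (Fin.castAdd t)) (M i))
      (fun i => MvPolynomial.rename (Sum.map (Fin.natAdd s) (Fin.natAdd s)) (M₁ i)), ?_, ?_⟩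
  · intro i
    refine Fin.addCases (fun i => ?_) (fun i => ?_) i
    · rw [Fin.addCases_left, MvPolynomial.eval_rename]
      have : (pt0 (Fin.append w w₁) ∘ Sum.map (Fin.castAdd t) (Fin.castAdd t)) = pt0 w := funext e0
      rw [this]; exact h.unit i
    · rw [Fin.addCases_right, MvPolynomial.eval_rename]
      have : (pt0 (Fin.append w w₁) ∘ Sum.map (Fin.natAdd s) (Fin.natAdd s)) = pt0 w₁ := funext e0'
      rw [this]; exact h₁.unit i
  · intro i
    refine Fin.addCases (fun i => ?_) (fun i => ?_) i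
    · rw [Fin.addCases_left, Fin.addCases_left, MvPolynomial.aeval_rename, MvPolynomial.aeval_rename,
        Fin.append_left]
      have : (pt2 (Fin.append w w₁) ∘ Sum.map (Fin.castAdd t) (Fin.castAdd t)) = pt2 w := funext e2
      rw [this]; exact h.add i
    · rw [Fin.addCases_right, Fin.addCases_right, MvPolynomial.aeval_rename,
        MvPolynomial.aeval_rename, Fin.append_right]
      have : (pt2 (Fin.append w w₁) ∘ Sum.map (Fin.natAdd s) (Fin.natAdd s)) = pt2 w₁ := funext e2'
      rw [this]; exact h₁.add i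

end Run7.h497.AD
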