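import Pool.Agent.Run7.h131.AD.Iface

/-! Project AD (helper131), piece LIN (helper497). -/

set_option autoImplicit false

namespace Run7.h497.AD

open Run7.h131.AD

theorem zi_add {p : ℕ} (hp : p.Prime) {x y : ℚ} (hx : ZI p x) (hy : ZI p y) : ZI p (x + y) := by
  obtain ⟨a, b, hb, rfl⟩ := hx
  obtain ⟨a', b', hb', rfl⟩ := hy
  have hb0 : (b : ℚ) ≠ 0 := by
    intro h; apply hb; have : b = 0 := by exact_mod_cast h
    rw [this]; exact dvd_zero _
  have hb0' : (b' : ℚ) ≠ 0 := by
    intro h; apply hb'; have : b' = 0 := by exact_mod_cast h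
    rw [this]; exact dvd_zero _
  refine ⟨a * b' + b * a', b * b', ?_, ?_⟩
  · intro h
    rcases (Nat.prime_iff_prime_int.mp hp).dvd_or_dvd h with h | h
    · exact hb h
    · exact hb' h
  · rw [div_add_div _ _ hb0 hb0']; push_cast; ring

theorem zi_mul {p : ℕ} (hp : p.Prime) {x y : ℚ} (hx : ZI p x) (hy : ZI p y) : ZI p (x * y) := by
  obtain ⟨a, b, hb, rfl⟩ := hx
  obtain ⟨a', b', hb', rfl⟩ := hy
  refine ⟨a * a', b * b', ?_, ?_⟩
  · intro h
    rcases (Nat.prime_iff_prime_int.mp hp).dvd_or_dvd h with h | h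
    · exact hb h
    · exact hb' h
  · rw [div_mul_div_comm]; push_cast; ring

theorem zi_int {p : ℕ} (hp : p.Prime) (n : ℤ) : ZI p (n : ℚ) :=
  ⟨n, 1, fun h => hp.one_lt.ne' (by
    have := Int.le_of_dvd one_pos h
    have h2 : (p : ℤ) ≤ 1 := this
    have h3 : p ≤ 1 := by exact_mod_cast h2
    exact absurd hp.one_lt (by omega)), by simp⟩

theorem zi_neg {p : ℕ} (hp : p.Prime) {x : ℚ} (hx : ZI p x) : ZI p (-x) := by
  have := zi_mul hp (zi_int hp (-1)) hx
  simpa using this

theorem zi_sum {p : ℕ} (hp : p.Prime) {ι : Type} (s : Finset ι) (g : ι → ℚ)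
    (h : ∀ i ∈ s, ZI p (g i)) : ZI p (∑ i ∈ s, g i) := by
  classical
  induction s using Finset.induction_on with
  | empty => simpa using zi_int hp 0
  | insert a s ha ih =>
    rw [Finset.sum_insert ha]
    exact zi_add hp (h a (Finset.mem_insert_self _ _))
      (ih fun i hi => h i (Finset.mem_insert_of_mem hi))

theorem zi_large (x : ℚ) {p : ℕ} (h : x.den < p) : ZI p x := by
  refine ⟨x.num, x.den, ?_, (Rat.num_div_den x).symm⟩
  intro hd
  have h1 : p ∣ x.den := by exact_mod_cast hd
  exact absurd (Nat.le_of_dvd x.den_pos h1) (by omega)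

theorem t_LIN : S_LIN := by
  classical
  intro s Λ
  obtain ⟨b, hbΛ, hspan, hli0⟩ := exists_linearIndependent ℚ Λ
  have hfin : b.Finite := hli0.setFinite
  have hli : LinearIndepOn ℚ id b := hli0
  let B := Module.Basis.extend hli
  have hmem : ∀ l : b, (l : Fin s → ℚ) ∈ LinearIndepOn.extend hli (Set.subset_univ b) := fun l =>
    LinearIndepOn.subset_extend hli _ l.2
  let u : (Fin s → ℚ) → Fin s → ℚ := fun l j =>
    if h : l ∈ b then B.coord ⟨l, hmem ⟨l, h⟩⟩ (Pi.single j 1) else 0
  have hu : ∀ l ∈ b, ∀ l' ∈ b, ∑ j, u l j * l' j = if l = l' then 1 else 0 := by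
    intro l hl l' hl'
    have h1 : ∑ j, u l j * l' j = B.coord ⟨l, hmem ⟨l, hl⟩⟩ l' := by
      conv_rhs => rw [LinearMap.pi_apply_eq_sum_univ (B.coord ⟨l, hmem ⟨l, hl⟩⟩) l']
      apply Finset.sum_congr rfl
      intro j _
      simp only [u, dif_pos hl, smul_eq_mul]
      rw [mul_comm]
      congr 2
      ext k
      simp [Pi.single_apply, eq_comm]
    rw [h1]
    have h2 : l' = B ⟨l', hmem ⟨l', hl'⟩⟩ := by
      simp [B, Module.Basis.extend_apply_self]
    conv_lhs => rw [h2]
    rw [Module.Basis.coord_apply, Module.Basis.repr_self, Finsupp.single_apply]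
    by_cases h3 : l = l'
    · subst h3; simp
    · rw [if_neg h3, if_neg]
      intro h4
      exact h3 (congrArg Subtype.val h4).symm
  let F : Finset (Fin s → ℚ) := hfin.toFinset
  refine ⟨F, (∑ l ∈ F, ∑ j, (u l j).den) + 1, ?_, ?_⟩
  · intro l hl
    exact hbΛ (by simpa [F] using hl)
  intro p hp0 hp c hc hcF
  have huZ : ∀ l ∈ F, ∀ j, ZI p (u l j) := by
    intro l hl j
    apply zi_large
    have h1 : (u l j).den ≤ ∑ j, (u l j).den :=
      Finset.single_le_sum (f := fun j => (u l j).den) (fun _ _ => Nat.zero_le _) (Finset.mem_univ j)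
    have h2 : ∑ j, (u l j).den ≤ ∑ l ∈ F, ∑ j, (u l j).den :=
      Finset.single_le_sum (f := fun l => ∑ j, (u l j).den) (fun _ _ => Nat.zero_le _) hl
    omega
  have hy : ∀ l : Fin s → ℚ, ∃ y : ℚ, l ∈ F → ZI p y ∧ ∑ j, c j * l j = p * y := by
    intro l
    by_cases hl : l ∈ F
    · obtain ⟨y, h1, h2⟩ := hcF l hl
      exact ⟨y, fun _ => ⟨h1, h2⟩⟩
    · exact ⟨0, fun h => absurd h hl⟩
  choose y hy using hy
  let τ : Fin s → ℚ := fun j => c j - ∑ l ∈ F, (∑ i, c i * l i) * u l j
  have hdiff : ∀ j, c j - τ j = p * ∑ l ∈ F, y l * u l j := by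
    intro j
    simp only [τ, sub_sub_cancel]
    rw [Finset.mul_sum]
    apply Finset.sum_congr rfl
    intro l hl
    rw [(hy l hl).2]; ring
  have hsumZ : ∀ j, ZI p (∑ l ∈ F, y l * u l j) := fun j =>
    zi_sum hp F _ fun l hl => zi_mul hp (hy l hl).1 (huZ l hl j)
  refine ⟨τ, ?_, ?_, ?_⟩
  · intro j
    have h1 : τ j = c j + -(((p : ℤ) : ℚ) * ∑ l ∈ F, y l * u l j) := by
      have := hdiff j
      push_cast
      linarith
    rw [h1]
    exact zi_add hp (hc j) (zi_neg hp (zi_mul hp (zi_int hp _) (hsumZ j)))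
  · have hF0 : ∀ l' ∈ b, ∑ j, τ j * l' j = 0 := by
      intro l' hl'
      have hl'F : l' ∈ F := by simpa [F] using hl'
      have h1 : ∑ j, τ j * l' j = ∑ j, c j * l' j -
          ∑ l ∈ F, (∑ i, c i * l i) * ∑ j, u l j * l' j := by
        have key : ∀ A : (Fin s → ℚ) → ℚ, ∑ j, (∑ l ∈ F, A l * u l j) * l' j =
            ∑ l ∈ F, A l * ∑ j, u l j * l' j := by
          intro A
          simp only [Finset.sum_mul]
          rw [Finset.sum_comm]
          apply Finset.sum_congr rfl
          intro l _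
          rw [Finset.mul_sum]
          apply Finset.sum_congr rfl
          intro j _
          ring
        simp only [τ, sub_mul, Finset.sum_sub_distrib]
        rw [key]
      rw [h1]
      have h2 : ∑ l ∈ F, (∑ i, c i * l i) * ∑ j, u l j * l' j =
          ∑ l ∈ F, if l = l' then (∑ i, c i * l i) else 0 := by
        apply Finset.sum_congr rfl
        intro l hl
        rw [hu l (by simpa [F] using hl) l' hl']
        split_ifs <;> simp
      rw [h2, Finset.sum_ite_eq' F l']
      simp [hl'F]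
    have hsp : ∀ l ∈ Submodule.span ℚ b, ∑ j, τ j * l j = 0 := by
      intro l hl
      induction hl using Submodule.span_induction with
      | mem x hx => exact hF0 x hx
      | zero => simp
      | add x y _ _ hx hy =>
        simp only [Pi.add_apply, mul_add, Finset.sum_add_distrib, hx, hy, add_zero]
      | smul a x _ hx =>
        have : ∑ j, τ j * (a • x) j = a * ∑ j, τ j * x j := by
          rw [Finset.mul_sum]
          apply Finset.sum_congr rfl
          intro j _
          simp only [Pi.smul_apply, smul_eq_mul]; ring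
        rw [this, hx, mul_zero]
    intro l hl
    exact hsp l (by rw [hspan]; exact Submodule.subset_span hl)
  · intro j
    exact ⟨_, hsumZ j, hdiff j⟩

end Run7.h497.AD
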